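import Pool.Agent.H519.P4.Pts
import Pool.Agent.H519.P4.Sh

/-!
# MP_4ffbf9_nt: coefficients for which `A X + B Y = C Z` has no solution with `X Y Z` a cube

Families of `D` (each has at least `c X / √log X` members up to `X`):

* tame: `D` cube-free, prime to `3`, not `±1` modulo `9`, exactly one prime factor `2` modulo `3`;
* wild: `D = 3 m`, `m > 1` squarefree, all prime factors `1` modulo `3`.

For the share `c = ∏_{i ≥ 1} (1 - 3^{-i}) = 0.5601…` of the `D` (those which do not split): if `A X + B Y = C Z`,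
all numbers nonzero integers, then `A B C X Y Z` is never `D n³`.  So for all positive coefficients with
`A B C = D n³` the equation has no solution in products `X, Y, Z` of positive integers such that `X Y Z` is a
cube, in particular in products of spread `0` whose degrees are divisible by `3`; the degrees are arbitrary, and
there is no condition on the greatest common divisor of `X` and `Y`.
-/

set_option autoImplicit false

open scoped Classical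

namespace Pool.Agent.Results.MP_4ffbf9_nt.CubicTwistCoefficients

/-- the tame family -/
def Tame (D : ℕ) : Prop := (D ≠ 0 ∧ ¬ 3 ∣ D ∧ ∀ p : ℕ, p.Prime → ¬ p ^ 3 ∣ D) ∧
  D % 9 ≠ 1 ∧ D % 9 ≠ 8 ∧
  ∃ q : ℕ, q.Prime ∧ q % 3 = 2 ∧ q ∣ D ∧ ∀ p : ℕ, p.Prime → p ∣ D → p ≠ q → p % 3 = 1

/-- the wild family -/
def Wild (D : ℕ) : Prop :=
  ∃ m : ℕ, D = 3 * m ∧ 1 < m ∧ Squarefree m ∧ ∀ p : ℕ, p.Prime → p ∣ m → p % 3 = 1

/-- `D` is not a product `d₀ d₁ d₂` of coprime factors, at least two of them different from `1`,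
such that `d₁ d₂²`, `d₂ d₀²`, `d₀ d₁²` are cubes modulo the primes dividing `d₀`, `d₁`, `d₂` -/
def NoSplit (D : ℕ) : Prop :=
  ∀ d : ZMod 3 → ℕ, ∏ c, d c = D → (∀ c c', c ≠ c' → Nat.Coprime (d c) (d c')) →
    (∀ (c : ZMod 3) (p : ℕ), p.Prime → p ∣ d c →
      ∃ x : ℤ, (p : ℤ) ∣ (d (c + 1) : ℤ) * (d (c + 2) : ℤ) ^ 2 - x ^ 3) →
    ∃ c, ∀ c', c' ≠ c → d c' = 1

/-- `X` is the product of a sequence of `n ≥ 1` positive integers with smallest member `b` and largest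
member `b + s`: a product of degree `n`, base `b` and spread `s` -/
def IsProduct (X n b s : ℕ) : Prop :=
  0 < b ∧ ∃ x : Fin n → ℕ, (∀ i, b ≤ x i ∧ x i ≤ b + s) ∧ (∃ i, x i = b) ∧ (∃ i, x i = b + s) ∧
    ∏ i, x i = X

/-- the solutions of `A X + B Y = C Z` in positive integers `X, Y, Z` which are products of degree divisible
by `3` and spread `0` -/
def sol (A B C : ℕ) : Set (ℕ × ℕ × ℕ) :=
  {t | A * t.1 + B * t.2.1 = C * t.2.2 ∧ ∃ n₁ n₂ n₃ b₁ b₂ b₃ : ℕ, IsProduct t.1 n₁ b₁ 0 ∧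
    IsProduct t.2.1 n₂ b₂ 0 ∧ IsProduct t.2.2 n₃ b₃ 0 ∧ 3 ∣ n₁ ∧ 3 ∣ n₂ ∧ 3 ∣ n₃}

/-- the number of the `D` with the property `Q`, `1 ≤ D ≤ X` -/
noncomputable def count (Q : ℕ → Prop) (X : ℕ) : ℕ := ((Finset.Icc 1 X).filter Q).card

/-- `p = ∏_{i ≥ 1} (1 - 3^{-i})` -/
noncomputable def c : ℝ := ∏' i : ℕ, (1 - (1 / 3 : ℝ) ^ (i + 1))

/-- `A X + B Y = C Z` has no solution in nonzero integers such that `X Y Z = h w³` for an integer `w` -/
def Without (A B C h : ℕ) : Prop :=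
  ∀ X Y Z w : ℤ, X ≠ 0 → Y ≠ 0 → Z ≠ 0 → (A : ℤ) * X + B * Y = C * Z → X * Y * Z ≠ h * w ^ 3

lemma cubes {X n b : ℕ} (h : IsProduct X n b 0) (h3 : 3 ∣ n) : ∃ w : ℕ, 0 < w ∧ X = w ^ 3 := by
  obtain ⟨hb, x, hx, -, -, hp⟩ := h
  obtain ⟨k, rfl⟩ := h3
  refine ⟨b ^ k, Nat.pow_pos hb, ?_⟩
  rw [← hp, Finset.prod_congr rfl (fun i _ => le_antisymm (hx i).2 (hx i).1), Finset.prod_const,
    Finset.card_univ, Fintype.card_fin, add_zero, ← pow_mul, mul_comm]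

section

variable {D : ℕ} (h2 : 2 < D) (hcf : ∀ p : ℕ, p.Prime → ¬ p ^ 3 ∣ D)
  (hfin : Finite (Pool.Agent.T2H55.XY.EP (D : ℚ)))
include h2 hcf hfin

lemma three {a b c n : ℤ} (ha : a ≠ 0) (hb : b ≠ 0) (hc : c ≠ 0) (hs : a + b = c) :
    a * b * c ≠ D * n ^ 3 := by
  intro h
  have hD : (D : ℚ) ≠ 0 := by exact_mod_cast (by omega : D ≠ 0)
  have hcq : (c : ℚ) ≠ 0 := by exact_mod_cast hc
  have hn : (n : ℚ) ≠ 0 := by
    intro h0
    have h1 : n = 0 := by exact_mod_cast h0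
    rw [h1] at h
    exact mul_ne_zero (mul_ne_zero ha hb) hc (by rw [h]; ring)
  have hq : (a : ℚ) * b * c = D * n ^ 3 := by exact_mod_cast h
  have hsq : (a : ℚ) + b = c := by exact_mod_cast hs
  have hpt : (4 * (D : ℚ) * (a - b) / c) ^ 2 = (-(4 * D * n / c)) ^ 3 + 16 * (D : ℚ) ^ 2 := by
    field_simp
    rw [← hsq] at hq ⊢
    linear_combination (-64 : ℚ) * hq
  have h5 := Pool.Agent.H519.P4.aff_E h2 hcf hfin hpt
  have h6 : (4 * (D : ℚ) * n / c) ≠ 0 :=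
    div_ne_zero (mul_ne_zero (mul_ne_zero (by norm_num) hD) hn) hcq
  exact h6 (neg_eq_zero.1 h5)

lemma six {A B C X Y Z n : ℤ} (hA : A ≠ 0) (hB : B ≠ 0) (hC : C ≠ 0) (hX : X ≠ 0) (hY : Y ≠ 0)
    (hZ : Z ≠ 0) (hs : A * X + B * Y = C * Z) : A * B * C * (X * Y * Z) ≠ D * n ^ 3 := by
  intro h
  exact three h2 hcf hfin (n := n) (mul_ne_zero hA hX) (mul_ne_zero hB hY) (mul_ne_zero hC hZ) hs
    (by rw [← h]; ring)

end

lemma good {D : ℕ} (hD : Tame D ∨ Wild D) (hN : NoSplit D) (hne : D ≠ 2) :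
    2 < D ∧ (∀ p : ℕ, p.Prime → ¬ p ^ 3 ∣ D) ∧ Finite (Pool.Agent.T2H55.XY.EP (D : ℚ)) := by
  rcases hD with hD | ⟨m, rfl, g1, g2, g3⟩
  · have h1 : 2 < D := by
      have e0 := hD.1.1
      have e1 := hD.2.1
      have e2 : D ≠ 1 := by
        rintro rfl
        exact e1 rfl
      omega
    exact ⟨h1, hD.1.2.2, Pool.Agent.H519.P4.tame_fin hD hN⟩
  · obtain ⟨hs, hm1⟩ := Pool.Agent.H519.P4.Sh.wild_sq g1 g2 g3
    have hcf : ∀ p : ℕ, p.Prime → ¬ p ^ 3 ∣ 3 * m := by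
      intro p hp h
      have h3 : ¬ 3 ∣ m := fun h => by
        have := g3 3 Nat.prime_three h
        norm_num at this
      have hsq : Squarefree (3 * m) := by
        rw [Nat.squarefree_mul ((Nat.Prime.coprime_iff_not_dvd Nat.prime_three).2 h3)]
        exact ⟨Nat.prime_three.squarefree, g2⟩
      have h4 : p * p ∣ 3 * m := (Dvd.intro p (by ring)).trans h
      exact hp.one_lt.ne' (Nat.isUnit_iff.1 (hsq p h4))
    exact ⟨by omega, hcf, Pool.Agent.H519.P4.wild_fin hs hm1 hN⟩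

lemma good_low : ∃ c : ℝ, 0 < c ∧ ∃ X₀ : ℕ, ∀ X : ℕ, X₀ ≤ X →
    c * X / Real.sqrt (Real.log X) ≤ (count (fun D => Wild D ∧ NoSplit D) X : ℝ) := by
  obtain ⟨c', hc', X₁, h1⟩ := Pool.Agent.H519.P4.Sh.low_wild
  have h2 := (tendsto_order.1 Pool.Agent.H519.P4.Sh.share_wild).1 (1 / 2)
    (lt_trans (by norm_num) Pool.Agent.Y461.CX.t_C3.2.2.2)
  obtain ⟨X₂, h2⟩ := Filter.eventually_atTop.1 h2
  obtain ⟨X₃, h3⟩ := Filter.eventually_atTop.1 (Pool.Agent.H519.P4.Sh.pos_of_low ⟨c', hc', X₁, h1⟩)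
  refine ⟨c' / 2, by positivity, max X₁ (max X₂ X₃), fun X hX => ?_⟩
  have g1 := h1 X ((le_max_left _ _).trans hX)
  have g2 := h2 X (((le_max_left _ _).trans (le_max_right _ _)).trans hX)
  have g3 := h3 X (((le_max_right _ _).trans (le_max_right _ _)).trans hX)
  rw [lt_div_iff₀ g3] at g2
  have g4 : c' / 2 * X / Real.sqrt (Real.log X) = 1 / 2 * (c' * X / Real.sqrt (Real.log X)) := by
    ring
  rw [g4]
  exact (mul_le_mul_of_nonneg_left g1 (by norm_num)).trans g2.le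

lemma without {A B C : ℕ} (hA : 0 < A) (hB : 0 < B) (hC : 0 < C) {D : ℕ} (hD : Wild D)
    (hN : NoSplit D) : Without A B C (D * (A * B * C) ^ 2) := by
  have hne : D ≠ 2 := by
    obtain ⟨m, rfl, h, -⟩ := hD
    omega
  obtain ⟨g1, g2, g3⟩ := good (Or.inr hD) hN hne
  intro X Y Z w hX hY hZ hs h
  refine six g1 g2 g3 (A := A) (B := B) (C := C) (n := (A * B * C) * w) (by positivity)
    (by positivity) (by positivity) hX hY hZ hs ?_
  rw [h]
  push_cast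
  ring

lemma without_low {A B C : ℕ} (hA : 0 < A) (hB : 0 < B) (hC : 0 < C) :
    ∃ c : ℝ, 0 < c ∧ ∃ X₀ : ℕ, ∀ X : ℕ, X₀ ≤ X →
      c * X / Real.sqrt (Real.log X) ≤ (count (Without A B C) X : ℝ) := by
  obtain ⟨c', hc', X₁, h1⟩ := good_low
  have hK : 0 < (A * B * C) ^ 2 := by positivity
  set K := (A * B * C) ^ 2 with hKdef
  refine ⟨c' / (2 * K), by positivity, K * X₁ + 3 * K, fun X hX => ?_⟩
  have hY : X₁ ≤ X / K := (Nat.le_div_iff_mul_le hK).2 (by nlinarith)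
  have hX3 : 3 ≤ X / K := (Nat.le_div_iff_mul_le hK).2 (by nlinarith)
  have g1 := h1 (X / K) hY
  have g2 : count (fun D => Wild D ∧ NoSplit D) (X / K) ≤ count (Without A B C) X := by
    unfold count
    refine Finset.card_le_card_of_injOn (fun D => D * K) ?_ ?_
    · intro D hD
      simp only [Finset.coe_filter, Finset.mem_Icc, Set.mem_ofPred_eq] at hD ⊢
      exact ⟨⟨Nat.mul_pos hD.1.1 hK, (Nat.le_div_iff_mul_le hK).1 hD.1.2⟩,
        without hA hB hC hD.2.1 hD.2.2⟩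
    · intro D _ D' _ h
      exact Nat.eq_of_mul_eq_mul_right hK h
  have hr3 : (3 : ℝ) ≤ ((X / K : ℕ) : ℝ) := by exact_mod_cast hX3
  have hle : X / K ≤ X := Nat.div_le_self _ _
  have hl0 : 0 < Real.log ((X / K : ℕ) : ℝ) := Real.log_pos (by linarith)
  have hl1 : Real.log ((X / K : ℕ) : ℝ) ≤ Real.log X :=
    Real.log_le_log (by linarith) (by exact_mod_cast hle)
  have h6 : (X : ℝ) ≤ 2 * K * ((X / K : ℕ) : ℝ) := by
    have e1 : X < K * (X / K + 1) := Nat.lt_mul_div_succ X hK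
    have e2 : X ≤ 2 * K * (X / K) := by nlinarith
    exact_mod_cast e2
  have hs1 : (Real.sqrt (Real.log X))⁻¹ ≤ (Real.sqrt (Real.log ((X / K : ℕ) : ℝ)))⁻¹ :=
    inv_anti₀ (Real.sqrt_pos.2 hl0) (Real.sqrt_le_sqrt hl1)
  have hs0 : 0 ≤ (Real.sqrt (Real.log X))⁻¹ := by positivity
  have hKr : (0 : ℝ) < K := by exact_mod_cast hK
  have h7 : c' / (2 * K) * X ≤ c' * ((X / K : ℕ) : ℝ) := by
    rw [div_mul_eq_mul_div, div_le_iff₀ (by positivity)]
    nlinarith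
  rw [div_eq_mul_inv] at g1 ⊢
  refine (mul_le_mul h7 hs1 hs0 (by positivity)).trans (g1.trans ?_)
  exact_mod_cast g2

/-- **Main theorem.** -/
theorem result :
    (∀ D : ℕ, Tame D ∨ Wild D → NoSplit D → D ≠ 2 →
      (∀ A B C X Y Z n : ℤ, A ≠ 0 → B ≠ 0 → C ≠ 0 → X ≠ 0 → Y ≠ 0 → Z ≠ 0 →
        A * X + B * Y = C * Z → A * B * C * (X * Y * Z) ≠ D * n ^ 3) ∧
      (∀ A B C n : ℕ, n ≠ 0 → A * B * C = D * n ^ 3 → Without A B C 1 ∧ sol A B C = ∅)) ∧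
    (∃ c : ℝ, 0 < c ∧ ∃ X₀ : ℕ, ∀ X : ℕ, X₀ ≤ X →
      c * X / Real.sqrt (Real.log X) ≤ (count Tame X : ℝ) ∧
      c * X / Real.sqrt (Real.log X) ≤ (count Wild X : ℝ)) ∧
    (0.56 < c ∧ c < 0.5602) ∧
    Filter.Tendsto (fun X : ℕ =>
      (count (fun D => Tame D ∧ NoSplit D) X : ℝ) / (count Tame X : ℝ)) Filter.atTop (nhds c) ∧
    Filter.Tendsto (fun X : ℕ =>
      (count (fun D => Wild D ∧ NoSplit D) X : ℝ) / (count Wild X : ℝ)) Filter.atTop (nhds c) ∧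
    Filter.Tendsto (fun X : ℕ =>
      (count (fun D => (Tame D ∨ Wild D) ∧ NoSplit D) X : ℝ) /
        (count (fun D => Tame D ∨ Wild D) X : ℝ)) Filter.atTop (nhds c) ∧
    (∀ A B C : ℕ, 0 < A → 0 < B → 0 < C → ∃ c : ℝ, 0 < c ∧ ∃ X₀ : ℕ, ∀ X : ℕ, X₀ ≤ X →
      c * X / Real.sqrt (Real.log X) ≤ (count (Without A B C) X : ℝ)) := by
  refine ⟨?_, Pool.Agent.H519.P4.Sh.low_all, ⟨Pool.Agent.Y461.CX.t_C3.2.2.2,
    Pool.Agent.H462.N9.Law.c3_lt⟩, Pool.Agent.H519.P4.Sh.share_tame,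
    Pool.Agent.H519.P4.Sh.share_wild, Pool.Agent.H519.P4.Sh.share_all,
    fun _ _ _ hA hB hC => without_low hA hB hC⟩
  intro D hD hN hne
  obtain ⟨g1, g2, g3⟩ := good hD hN hne
  refine ⟨fun A B C X Y Z n hA hB hC hX hY hZ hs => six g1 g2 g3 hA hB hC hX hY hZ hs, ?_⟩
  intro A B C n hn h
  have h0 : A * B * C ≠ 0 := by
    rw [h]
    exact mul_ne_zero (by omega) (pow_ne_zero 3 hn)
  have hA : A ≠ 0 := by
    rintro rfl
    simp at h0
  have hB : B ≠ 0 := by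
    rintro rfl
    simp at h0
  have hC : C ≠ 0 := by
    rintro rfl
    simp at h0
  have hw : Without A B C 1 := by
    intro X Y Z w hX hY hZ hs h1
    refine six g1 g2 g3 (A := A) (B := B) (C := C) (n := n * w) (by exact_mod_cast hA)
      (by exact_mod_cast hB) (by exact_mod_cast hC) hX hY hZ hs ?_
    have h2 : (A : ℤ) * B * C = D * n ^ 3 := by exact_mod_cast h
    rw [h1, h2]
    push_cast
    ring
  refine ⟨hw, ?_⟩
  rw [Set.eq_empty_iff_forall_notMem]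
  rintro ⟨X, Y, Z⟩ ⟨hs, n₁, n₂, n₃, b₁, b₂, b₃, p₁, p₂, p₃, q₁, q₂, q₃⟩
  obtain ⟨x, hx, rfl⟩ := cubes p₁ q₁
  obtain ⟨y, hy, rfl⟩ := cubes p₂ q₂
  obtain ⟨z, hz, rfl⟩ := cubes p₃ q₃
  refine hw ((x : ℤ) ^ 3) ((y : ℤ) ^ 3) ((z : ℤ) ^ 3) (x * y * z) (by positivity) (by positivity)
    (by positivity) (by exact_mod_cast hs) ?_
  push_cast
  ring

end Pool.Agent.Results.MP_4ffbf9_nt.CubicTwistCoefficients
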