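import Pool.Agent.H577.FD.Bound

/-!
# `A X + B Y = C Z` in products of bounded degree whose bases have few digits

Let `S` be a finite set of primes. We consider the solutions of `A X + B Y = C Z` with
`gcd (X, Y) ≤ Q rad (gcd (X, Y))` for which each of `X`, `Y`, `Z` is

* either composed of the primes of `S` (for instance a product, of any degree, of integers from a
  bounded interval),
* or a product of at most `N` integers of an interval `[b, b + s]` whose base `b` is a sum of at most
  `r` terms `± v`, where the `v` are positive integers composed of the primes of `S`, with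
  `∑ v ≤ H b` (no big cancellation). For instance `b` has at most `r` nonzero digits in a given base
  `g` (in any places), or `b = G(v)` for one of finitely many polynomials `G` and an `S`-unit `v`.

The three bases are independent of each other. We prove that there are only finitely many such
solutions with `∑ (s + 1) / n ≤ F`, for every `F < 1`: this is the statement of the problem for
these products. Moreover, if `R_X` denotes the product of the different members of the product `X`
(`1`, if `X` is composed of the primes of `S`) and if the spreads are at most `N`, then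

  `Z ≤ M R_X R_Y R_Z`

for all solutions, where `M` depends on `S, r, H, N, A, B, C, Q` only: the inequality of Mason and
Stothers, without any loss in the exponent, with the members of the products in the role of the
irreducible factors. (For coprime `A X`, `B Y` the library has an inequality with the exponent `1 + ε`,
`MP_7aad9f_nt.SparseTriplesOverQ`; here `X` and `Y` may have a large squarefree common factor, as in the
problem.)

Proof. If there is no such `M`, there is a sequence of solutions of one shape which violate it more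
and more. Expand the products in monomials in the `S`-units `v_j` which occur in the bases. Let `U`
be a nonprincipal ultrafilter. Two monomials are called related if their ratio is constant
`U`-almost everywhere. By the theorem on vanishing sums of `S`-units the sum of the related monomials
of a class vanishes, for each class in a vanishing sum. There are weights `l_j ≥ 0`, integers of the
form `∑_p x^p (v_p (v_j (k₂)) - v_p (v_j (k₁)))`, such that two monomials have the same weight if and
only if they are related. Then `v_j T ^ (l_j)` in place of `v_j` also solves the equation, and the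
derivatives at `T = 1` are integers `X', Y', Z'` with `A X' + B Y' = C Z'` which are divisible by the
repeated factors `G_X = X / R_X`, `G_Y`, `G_Z`, and `|X'| ≤ L X` etc. The Wronskian
`W = X Y' - Y X'` is divisible by `G_X G_Y`, and `A B W` is divisible by
`G_X G_Y G_Z / gcd (G_X, G_Y, G_Z)`. By the condition on the `gcd` of `X` and `Y` we get
`G_X G_Y G_Z ≤ c |W| ≤ 2 c L X Y` if `W` is not zero, that is the inequality. If `W` is zero almost
everywhere, the polynomials are proportional, with a constant ratio almost everywhere, and the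
inequality follows from the condition on the `gcd` again.
-/

set_option autoImplicit false

namespace Pool.Agent.Results.MP_4ffbf9_nt.FewDigitBases

open Finset
open Pool.Agent.H577.FD (IsProduct IsSUnit FewTerms Shape IsSolution)

/-- the product of the different members is at most a power of the product -/
theorem rad_le {N b s : ℕ} {l : List ℕ} (hl : IsProduct b s l) (hs : s ≤ N) (hlen : l ≠ []) :
    ((∏ x ∈ l.toFinset, x : ℕ) : ℝ) ≤
      ((N : ℝ) + 1) ^ (N + 1) * ((l.prod : ℕ) : ℝ) ^ (((s : ℝ) + 1) / l.length) := by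
  obtain ⟨hb, -, -, hmem⟩ := hl
  have hb' : (1 : ℝ) ≤ b := by exact_mod_cast hb
  have hn : 0 < l.length := List.length_pos_iff.2 hlen
  have hn' : (0 : ℝ) < l.length := by exact_mod_cast hn
  have h1 : l.toFinset.card ≤ s + 1 := by
    calc l.toFinset.card ≤ (Finset.Icc b (b + s)).card := Finset.card_le_card (by
          intro x hx
          rw [List.mem_toFinset] at hx
          exact Finset.mem_Icc.2 (hmem x hx))
      _ = s + 1 := by rw [Nat.card_Icc]; omega
  have h2 : (∏ x ∈ l.toFinset, x : ℕ) ≤ ((N + 1) * b) ^ (s + 1) := by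
    calc (∏ x ∈ l.toFinset, x : ℕ) ≤ ∏ _x ∈ l.toFinset, ((N + 1) * b) := by
          refine Finset.prod_le_prod' fun x hx => ?_
          rw [List.mem_toFinset] at hx
          have h3 := (hmem x hx).2
          nlinarith
      _ = ((N + 1) * b) ^ l.toFinset.card := by rw [Finset.prod_const]
      _ ≤ ((N + 1) * b) ^ (s + 1) := Nat.pow_le_pow_right (Nat.mul_pos (Nat.succ_pos _) hb) h1
  have h3 : b ^ l.length ≤ l.prod := by
    clear h1 h2 hn hn' hlen
    induction l with
    | nil => simp
    | cons a l ih =>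
      rw [List.length_cons, pow_succ, List.prod_cons, mul_comm]
      exact Nat.mul_le_mul (hmem a (by simp)).1 (ih fun x hx => hmem x (by simp [hx]))
  have h4 : (b : ℝ) ^ (s + 1) ≤ ((l.prod : ℕ) : ℝ) ^ (((s : ℝ) + 1) / l.length) := by
    calc (b : ℝ) ^ (s + 1) = ((b : ℝ) ^ l.length) ^ (((s : ℝ) + 1) / l.length) := by
          rw [← Real.rpow_natCast, ← Real.rpow_natCast, ← Real.rpow_mul (by positivity)]
          congr 1
          push_cast
          field_simp
      _ ≤ _ := Real.rpow_le_rpow (by positivity) (by exact_mod_cast h3) (by positivity)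
  calc ((∏ x ∈ l.toFinset, x : ℕ) : ℝ) ≤ ((((N + 1) * b) ^ (s + 1) : ℕ) : ℝ) := by
        exact_mod_cast h2
    _ = ((N : ℝ) + 1) ^ (s + 1) * (b : ℝ) ^ (s + 1) := by push_cast; rw [mul_pow]
    _ ≤ _ := by
        refine mul_le_mul (pow_le_pow_right₀ (by linarith [Nat.cast_nonneg (α := ℝ) N]) (by omega))
          h4 (by positivity) (by positivity)

/-- **Products of bounded degree whose bases have few digits.** -/
theorem result (S : Finset ℕ) (r H N A B C : ℕ) (hA : 0 < A) (hB : 0 < B) (hC : 0 < C) (Q : ℝ) :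
    (∃ M : ℝ, ∀ (b s : Fin 3 → ℕ) (l : Fin 3 → List ℕ) (R : Fin 3 → ℕ),
      (∀ w, IsProduct (b w) (s w) (l w)) → (∀ w, Shape S r H N (b w) (s w) (l w) (R w)) →
      IsSolution A B C Q (l 0).prod (l 1).prod (l 2).prod →
      ((l 2).prod : ℝ) ≤ M * (R 0 * R 1 * R 2)) ∧
    ∀ F : ℝ, F < 1 →
      {x : ℕ × ℕ × ℕ | IsSolution A B C Q x.1 x.2.1 x.2.2 ∧
        ∃ (b s : Fin 3 → ℕ) (l : Fin 3 → List ℕ), (∀ w, IsProduct (b w) (s w) (l w)) ∧
          (l 0).prod = x.1 ∧ (l 1).prod = x.2.1 ∧ (l 2).prod = x.2.2 ∧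
          ∑ w, ((s w : ℝ) + 1) / (l w).length ≤ F ∧
          ∀ w, IsSUnit S (l w).prod ∨ ((l w).length ≤ N ∧ FewTerms S r H (b w))}.Finite := by
  classical
  refine ⟨Pool.Agent.H577.FD.bound S r H N A B C hA hB hC Q, fun F hF => ?_⟩
  obtain ⟨M, hM⟩ := Pool.Agent.H577.FD.bound S r H N A B C hA hB hC Q
  obtain ⟨K, hK⟩ : ∃ K : ℝ, K = ((N : ℝ) + 1) ^ (N + 1) := ⟨_, rfl⟩
  have hK1 : 1 ≤ K := by
    rw [hK]
    exact one_le_pow₀ (by linarith [Nat.cast_nonneg (α := ℝ) N])
  obtain ⟨c, hc⟩ : ∃ c : ℝ, c = C * ((|M| + 1) * K ^ 3) := ⟨_, rfl⟩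
  obtain ⟨V₀, hV₀⟩ : ∃ V₀ : ℝ, V₀ = c ^ (1 / (1 - F)) := ⟨_, rfl⟩
  refine Set.Finite.subset ((Set.finite_Iic ⌊V₀⌋₊).prod ((Set.finite_Iic ⌊V₀⌋₊).prod
    (Set.finite_Iic ⌊V₀⌋₊))) ?_
  rintro ⟨X, Y, Z⟩ ⟨hsol, b, s, l, hprod, hX, hY, hZ, hF', hshape⟩
  simp only at hsol hX hY hZ
  have hne : ∀ w, l w ≠ [] := fun w h0 => by
    have h1 := (hprod w).2.1
    rw [h0] at h1
    simp at h1
  have hlen : ∀ w, (0 : ℝ) < (l w).length := fun w => by
    exact_mod_cast List.length_pos_iff.2 (hne w)
  have ht0 : ∀ w, 0 ≤ ((s w : ℝ) + 1) / (l w).length := fun w => by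
    have := hlen w
    positivity
  have htF : ∀ w, ((s w : ℝ) + 1) / (l w).length ≤ F := fun w =>
    (Finset.single_le_sum (fun w _ => ht0 w) (Finset.mem_univ w)).trans hF'
  have hpos : ∀ w, 0 < (l w).prod := fun w => by
    refine Nat.pos_of_ne_zero fun h0 => ?_
    rw [List.prod_eq_zero_iff] at h0
    have := ((hprod w).2.2.2 0 h0).1
    have h1 := (hprod w).1
    omega
  have hR : ∀ w, ∃ R : ℕ, Shape S r H N (b w) (s w) (l w) R ∧
      (R : ℝ) ≤ K * (((l w).prod : ℕ) : ℝ) ^ (((s w : ℝ) + 1) / (l w).length) := by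
    intro w
    rcases hshape w with h1 | ⟨h1, h2⟩
    · refine ⟨1, Or.inl ⟨h1, rfl⟩, ?_⟩
      have h2 : (1 : ℝ) ≤ (((l w).prod : ℕ) : ℝ) ^ (((s w : ℝ) + 1) / (l w).length) :=
        Real.one_le_rpow (by exact_mod_cast hpos w) (ht0 w)
      rw [Nat.cast_one]
      exact one_le_mul_of_one_le_of_one_le hK1 h2
    · have h3 : s w ≤ N := by
        have h4 := lt_of_le_of_lt (htF w) hF
        rw [div_lt_one (hlen w)] at h4
        have h5 : s w + 1 < (l w).length := by exact_mod_cast h4
        omega
      refine ⟨_, Or.inr ⟨h1, h3, h2, rfl⟩, ?_⟩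
      rw [hK]
      exact rad_le (hprod w) h3 (hne w)
  choose R hR1 hR2 using hR
  have hmain := hM b s l R hprod hR1 (by rw [hX, hY, hZ]; exact hsol)
  obtain ⟨V, hV⟩ : ∃ V : ℝ, V = C * Z := ⟨_, rfl⟩
  have hZpos : 0 < Z := by rw [← hZ]; exact hpos 2
  have hCr : (1 : ℝ) ≤ C := by exact_mod_cast hC
  have hZr : (1 : ℝ) ≤ Z := by exact_mod_cast hZpos
  have hV1 : 1 ≤ V := by rw [hV]; nlinarith
  have hXV : (X : ℝ) ≤ V := by
    rw [hV]
    have h1 : X ≤ C * Z := by
      rw [← hsol.1]
      exact (Nat.le_mul_of_pos_left X hA).trans (Nat.le_add_right _ _)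
    exact_mod_cast h1
  have hYV : (Y : ℝ) ≤ V := by
    rw [hV]
    have h1 : Y ≤ C * Z := by
      rw [← hsol.1]
      exact (Nat.le_mul_of_pos_left Y hB).trans (Nat.le_add_left _ _)
    exact_mod_cast h1
  have hZV : (Z : ℝ) ≤ V := by
    rw [hV]
    nlinarith
  have hRV : ∀ w, (R w : ℝ) ≤ K * V ^ (((s w : ℝ) + 1) / (l w).length) := by
    intro w
    refine (hR2 w).trans (mul_le_mul_of_nonneg_left ?_ (by linarith))
    refine Real.rpow_le_rpow (Nat.cast_nonneg _) ?_ (ht0 w)
    fin_cases w
    · change (((l 0).prod : ℕ) : ℝ) ≤ V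
      rw [hX]
      exact hXV
    · change (((l 1).prod : ℕ) : ℝ) ≤ V
      rw [hY]
      exact hYV
    · change (((l 2).prod : ℕ) : ℝ) ≤ V
      rw [hZ]
      exact hZV
  have hRRR : (R 0 : ℝ) * R 1 * R 2 ≤ K ^ 3 * V ^ F := by
    have hV0 : 0 < V := by linarith
    calc (R 0 : ℝ) * R 1 * R 2
        ≤ (K * V ^ (((s 0 : ℝ) + 1) / (l 0).length)) * (K * V ^ (((s 1 : ℝ) + 1) / (l 1).length)) *
          (K * V ^ (((s 2 : ℝ) + 1) / (l 2).length)) := by
          have hn := fun w => Nat.cast_nonneg (α := ℝ) (R w)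
          have hp : ∀ w, 0 ≤ K * V ^ (((s w : ℝ) + 1) / (l w).length) := fun w =>
            (hn w).trans (hRV w)
          exact mul_le_mul (mul_le_mul (hRV 0) (hRV 1) (hn 1) (hp 0)) (hRV 2) (hn 2)
            (mul_nonneg (hp 0) (hp 1))
      _ = K ^ 3 * V ^ (∑ w, ((s w : ℝ) + 1) / (l w).length) := by
          rw [Fin.sum_univ_three, Real.rpow_add hV0, Real.rpow_add hV0]
          ring
      _ ≤ K ^ 3 * V ^ F := by
          refine mul_le_mul_of_nonneg_left ?_ (by positivity)
          exact Real.rpow_le_rpow_of_exponent_le hV1 hF'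
  have hVle : V ≤ c * V ^ F := by
    have h1 : (Z : ℝ) ≤ (|M| + 1) * (K ^ 3 * V ^ F) := by
      rw [hZ] at hmain
      have hn : 0 ≤ (R 0 : ℝ) * R 1 * R 2 := by positivity
      calc (Z : ℝ) ≤ M * (R 0 * R 1 * R 2) := hmain
        _ ≤ (|M| + 1) * (R 0 * R 1 * R 2) :=
            mul_le_mul_of_nonneg_right (by linarith [le_abs_self M]) hn
        _ ≤ _ := mul_le_mul_of_nonneg_left hRRR (by positivity)
    rw [hc]
    calc V = C * Z := hV
      _ ≤ C * ((|M| + 1) * (K ^ 3 * V ^ F)) := mul_le_mul_of_nonneg_left h1 (by positivity)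
      _ = _ := by ring
  have hVV : V ≤ V₀ := by
    have hV0 : 0 < V := by linarith
    have h1 : V ^ (1 - F) ≤ c := by
      rw [Real.rpow_sub hV0, Real.rpow_one, div_le_iff₀ (Real.rpow_pos_of_pos hV0 F)]
      exact hVle
    have h2 : 0 < 1 - F := by linarith
    calc V = (V ^ (1 - F)) ^ (1 / (1 - F)) := by
          rw [← Real.rpow_mul hV0.le, mul_one_div_cancel h2.ne', Real.rpow_one]
      _ ≤ c ^ (1 / (1 - F)) := Real.rpow_le_rpow (by positivity) h1 (by positivity)
      _ = V₀ := hV₀.symm
  refine ⟨?_, ?_, ?_⟩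
  · exact Nat.le_floor (hXV.trans hVV)
  · exact Nat.le_floor (hYV.trans hVV)
  · exact Nat.le_floor (hZV.trans hVV)

end Pool.Agent.Results.MP_4ffbf9_nt.FewDigitBases
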