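import Pool.Agent.H326.CS.E
import Pool.Agent.H573.AHB.DnB

/-!
# MP_4ffbf9_nt: perfect powers, `A x ^ m + B y ^ n = C z ^ k`, uniformly in the coefficients

`Primitive x y z`: no prime divides `x`, `y` and `z`. Let `B C` be a perfect square.

(1) There are `δ > 0` and a set `S` of primes of positive logarithmic proportion (the sum of `1/s`
over `s ∈ S ∩ [X^{5/8}, X]` is bounded below), and for each `s ∈ S` a set `G` of at least `s^δ`
primes `q ≡ 1 (mod s)`, such that for ALL positive `A, B, C ≤ s^δ` with `B C` a square and all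
positive exponents `m, n, k` with `s ∣ m`, `2 s ∣ n`, `2 s ∣ k`, every primitive solution `x, y, z`
of `A x ^ m + B y ^ n = C z ^ k` satisfies for every `q ∈ G` (`Residues`): `q ∣ x` only if `B = C`,
`q ∣ y` only if `A = C`, `q ∣ z` only if `A = B`, and `q ∤ x y z` only if `A = |C - B|`.
(2) For every `η > 0` there is `κ > 0` such that for all large `X` and all but at most `η X`
integers `N ≤ X` (`AtMultiples N (N^κ)`): for all positive `A, B, C ≤ N^κ` with `B C` a square and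
`A ≠ |C - B|` and all positive `m, n, k` with `N ∣ m`, `2 N ∣ n`, `2 N ∣ k`, every primitive
solution has `exc A B C x y z = 0` or `|exc A B C x y z| ≥ exp (N^κ)`, where `exc` is the product
of `x` if `B = C`, `y` if `A = C` and `z` if `A = B`; so there is none if `A, B, C` are distinct.
-/

namespace Pool.Agent.Results.MP_4ffbf9_nt.UniformCoefficients

open Pool.Agent.H573.AHB Pool.Agent.H326.CS

/-- no prime divides `x`, `y` and `z` -/
def Primitive (x y z : ℤ) : Prop := ∀ p : ℕ, p.Prime → ¬ ((p : ℤ) ∣ x ∧ (p : ℤ) ∣ y ∧ (p : ℤ) ∣ z)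

/-- the residues of a solution modulo `q` -/
def Residues (q A B C : ℕ) (x y z : ℤ) : Prop :=
  ((q : ℤ) ∣ x → B = C) ∧ ((q : ℤ) ∣ y → A = C) ∧ ((q : ℤ) ∣ z → A = B) ∧
    (¬ (q : ℤ) ∣ x * y * z → A + B = C ∨ A + C = B)

/-- the product of the unknowns that vanish in a trivial solution of the equation -/
def exc (A B C : ℕ) (x y z : ℤ) : ℤ :=
  (if B = C then x else 1) * (if A = C then y else 1) * (if A = B then z else 1)

/-- the statement for the exponents divisible by `N` and the coefficients up to `Z` -/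
def AtMultiples (N : ℕ) (Z : ℝ) : Prop :=
  ∀ A B C : ℕ, 1 ≤ A → 1 ≤ B → 1 ≤ C → (A : ℝ) ≤ Z → (B : ℝ) ≤ Z → (C : ℝ) ≤ Z →
    IsSquare (B * C) → A + B ≠ C → A + C ≠ B →
    ∀ m n k : ℕ, 0 < m → 0 < n → 0 < k → N ∣ m → 2 * N ∣ n → 2 * N ∣ k →
      ∀ x y z : ℤ, Primitive x y z → (A : ℤ) * x ^ m + (B : ℤ) * y ^ n = (C : ℤ) * z ^ k →
      exc A B C x y z = 0 ∨ Real.exp Z ≤ |((exc A B C x y z : ℤ) : ℝ)|

theorem result :
    (∃ δ : ℝ, 0 < δ ∧ ∃ S : Set ℕ, (∀ s ∈ S, s.Prime) ∧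
      (∃ c : ℝ, 0 < c ∧ ∃ X₀ : ℕ, ∀ X : ℕ, X₀ ≤ X →
        c ≤ ∑ᶠ s ∈ {s : ℕ | s ∈ S ∧ (X : ℝ) ^ (5 / 8 : ℝ) ≤ s ∧ s ≤ X}, (1 : ℝ) / s) ∧
      ∀ s ∈ S, ∃ G : Finset ℕ, (s : ℝ) ^ δ ≤ (G.card : ℝ) ∧ (∀ q ∈ G, q.Prime ∧ s ∣ q - 1) ∧
        ∀ A B C : ℕ, 1 ≤ A → 1 ≤ B → 1 ≤ C → (A : ℝ) ≤ (s : ℝ) ^ δ → (B : ℝ) ≤ (s : ℝ) ^ δ →
          (C : ℝ) ≤ (s : ℝ) ^ δ → IsSquare (B * C) →
          ∀ m n k : ℕ, 0 < m → 0 < n → 0 < k → s ∣ m → 2 * s ∣ n → 2 * s ∣ k →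
          ∀ x y z : ℤ, Primitive x y z →
            (A : ℤ) * x ^ m + (B : ℤ) * y ^ n = (C : ℤ) * z ^ k →
            ∀ q ∈ G, Residues q A B C x y z) ∧
    (∀ η : ℝ, 0 < η → ∃ κ : ℝ, 0 < κ ∧ ∃ X₁ : ℕ, ∀ X : ℕ, X₁ ≤ X →
      (Set.ncard {N : ℕ | N ≤ X ∧ ¬ AtMultiples N ((N : ℝ) ^ κ)} : ℝ) ≤ η * X) := by
  classical
  obtain ⟨δ, hδ0, hδ1, S, hS, hdens⟩ := diagV 1 le_rfl _ usparse_BD 5
  have main : ∀ s ∈ S, ∃ G : Finset ℕ, (s : ℝ) ^ δ ≤ (G.card : ℝ) ∧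
      (∀ q ∈ G, q.Prime ∧ s ∣ q - 1) ∧
        ∀ A B C : ℕ, 1 ≤ A → 1 ≤ B → 1 ≤ C → (A : ℝ) ≤ (s : ℝ) ^ δ → (B : ℝ) ≤ (s : ℝ) ^ δ →
          (C : ℝ) ≤ (s : ℝ) ^ δ → IsSquare (B * C) →
          ∀ m n k : ℕ, 0 < m → 0 < n → 0 < k → s ∣ m → 2 * s ∣ n → 2 * s ∣ k →
          ∀ x y z : ℤ, Primitive x y z →
            (A : ℤ) * x ^ m + (B : ℤ) * y ^ n = (C : ℤ) * z ^ k →
            ∀ q ∈ G, Residues q A B C x y z := by
    intro s hs
    obtain ⟨hsp, hs2, G, hG1, hG2⟩ := hS s hs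
    have hs1 : (1 : ℝ) ≤ s := by exact_mod_cast (by omega : 1 ≤ s)
    refine ⟨G, hG1, fun q hq => ⟨(hG2 q hq).1, (hG2 q hq).2.2.1⟩, ?_⟩
    rintro A B C hA hB hC hA' hB' hC' ⟨w, hw⟩ m n k hm0 hn0 hk0 ⟨m', rfl⟩ ⟨n', rfl⟩ ⟨k', rfl⟩ x y z hp h q hq
    obtain ⟨k1, -, k3, k4⟩ := hG2 q hq
    obtain ⟨M, hM⟩ : ∃ M, M = max A (max B C) := ⟨_, rfl⟩
    have hMr : (M : ℝ) ≤ (s : ℝ) ^ δ := by
      rw [hM]
      push_cast
      exact max_le hA' (max_le hB' hC')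
    have hMs : M ≤ s := by
      have : (M : ℝ) ≤ (s : ℝ) := hMr.trans (by
        calc (s : ℝ) ^ δ ≤ (s : ℝ) ^ (1 : ℝ) :=
              Real.rpow_le_rpow_of_exponent_le hs1 (by linarith)
          _ = s := Real.rpow_one _)
      exact_mod_cast this
    have hp' : Prim (x ^ m') (y ^ n') (z ^ k') := by
      rintro p hpp ⟨h1, h2, h3⟩
      have hpi : Prime (p : ℤ) := Nat.prime_iff_prime_int.mp hpp
      exact hp p hpp ⟨hpi.dvd_of_dvd_pow h1, hpi.dvd_of_dvd_pow h2, hpi.dvd_of_dvd_pow h3⟩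
    have h' : (A : ℤ) * (x ^ m') ^ s + (B : ℤ) * ((y ^ n') ^ s) ^ 2 =
        (C : ℤ) * ((z ^ k') ^ s) ^ 2 := by
      have e1 : (x ^ m') ^ s = x ^ (s * m') := by rw [← pow_mul, mul_comm]
      have e2 : ((y ^ n') ^ s) ^ 2 = y ^ (2 * s * n') := by
        rw [← pow_mul, ← pow_mul]
        congr 1
        ring
      have e3 : ((z ^ k') ^ s) ^ 2 = z ^ (2 * s * k') := by
        rw [← pow_mul, ← pow_mul]
        congr 1
        ring
      rw [e1, e2, e3]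
      exact h
    obtain ⟨r, β, γ, hr, hβ, hγ, hBr, hCr⟩ := same_class hB hC (hw.trans (pow_two w).symm)
    obtain ⟨g1, g2, g3, g4⟩ := local_main k1 hsp (by omega) k3 hMs (k4 M hMr) hA hB hC
      (by rw [hM]; exact le_max_left _ _)
      (by rw [hM]; exact (le_max_left _ _).trans (le_max_right _ _))
      (by rw [hM]; exact (le_max_right _ _).trans (le_max_right _ _)) hr hβ hγ hBr hCr hp' h'
    have hqi : Prime (q : ℤ) := Nat.prime_iff_prime_int.mp k1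
    have hm' : m' ≠ 0 := by rintro rfl; omega
    have hn' : n' ≠ 0 := by rintro rfl; omega
    have hk' : k' ≠ 0 := by rintro rfl; omega
    refine ⟨fun hx => g1 (dvd_pow hx hm'), fun hy => g2 (dvd_pow hy hn'),
      fun hz => g3 (dvd_pow hz hk'), fun hxyz => g4 ?_⟩
    intro hd
    apply hxyz
    rcases hqi.dvd_or_dvd hd with h1 | h1
    · rcases hqi.dvd_or_dvd h1 with h2 | h2
      · exact ((hqi.dvd_of_dvd_pow h2).mul_right y).mul_right z
      · exact ((hqi.dvd_of_dvd_pow h2).mul_left x).mul_right z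
    · exact (hqi.dvd_of_dvd_pow h1).mul_left (x * y)
  refine ⟨⟨δ, hδ0, S, fun s hs => (hS s hs).1, hdens, main⟩, ?_⟩
  refine almost_all_of S (fun s hs => (hS s hs).1) hdens (fun Z N => AtMultiples N Z) δ hδ0 0 ?_ ?_
  · rintro s hs _ N ⟨N', rfl⟩ A B C hA hB hC hA' hB' hC' hw hne1 hne2 m n k hm0 hn0 hk0 hm hn hk
      x y z hp h
    obtain ⟨G, hG1, hG2, hG3⟩ := main s hs
    obtain ⟨hsp, hs2, -⟩ := hS s hs
    have hres := hG3 A B C hA hB hC hA' hB' hC' hw m n k hm0 hn0 hk0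
      ((Dvd.intro _ rfl).trans hm) ((Dvd.intro N' (mul_assoc 2 s N')).trans hn)
      ((Dvd.intro N' (mul_assoc 2 s N')).trans hk) x y z hp h
    rcases eq_or_ne (exc A B C x y z) 0 with h0 | h0
    · exact Or.inl h0
    · right
      have h1 : ∀ q ∈ G, q.Prime ∧ 3 ≤ q ∧ q ∣ (exc A B C x y z).natAbs := by
        intro q hq
        obtain ⟨k1, k2⟩ := hG2 q hq
        have hq2 := k1.two_le
        have hsq := Nat.le_of_dvd (by omega) k2
        refine ⟨k1, by omega, ?_⟩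
        obtain ⟨r1, r2, r3, r4⟩ := hres q hq
        have hqi : Prime (q : ℤ) := Nat.prime_iff_prime_int.mp k1
        have hxyz : (q : ℤ) ∣ x * y * z := by
          by_contra hcon
          rcases r4 hcon with h2 | h2
          · exact hne1 h2
          · exact hne2 h2
        rw [← Int.natCast_dvd]
        unfold exc
        rcases hqi.dvd_or_dvd hxyz with h2 | h2
        · rcases hqi.dvd_or_dvd h2 with h3 | h3
          · rw [if_pos (r1 h3)]
            exact (h3.mul_right _).mul_right _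
          · rw [if_pos (r2 h3)]
            exact (h3.mul_left _).mul_right _
        · rw [if_pos (r3 h2)]
          exact h2.mul_left _
      have h2 := big_of_dvd G _ (Int.natAbs_ne_zero.mpr h0) h1
      have h3 : (((exc A B C x y z).natAbs : ℕ) : ℝ) = |((exc A B C x y z : ℤ) : ℝ)| := by
        rw [Nat.cast_natAbs, Int.cast_abs]
      rw [h3] at h2
      exact (Real.exp_le_exp.mpr hG1).trans h2
  · intro z z' N hz hP A B C hA hB hC hA' hB' hC' hw hne1 hne2 m n k hm0 hn0 hk0 hm hn hk x y w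
      hp h
    rcases hP A B C hA hB hC (hA'.trans hz) (hB'.trans hz) (hC'.trans hz) hw hne1 hne2 m n k hm0
      hn0 hk0 hm hn hk x y w hp h with h1 | h1
    · exact Or.inl h1
    · exact Or.inr ((Real.exp_le_exp.mpr hz).trans h1)

end Pool.Agent.Results.MP_4ffbf9_nt.UniformCoefficients
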